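import Pool.Agent.H98.NU43.Main

/-!
The binary restricted Boltzmann machine with 4 visible and 3 hidden units is not a universal
approximator (Q2 of MP_dabbe0_pr, answered in the negative).

Idea. The logarithm of an RBM distribution is an affine function plus one softplus unit per
hidden unit.  For a two dimensional face of the cube in directions i, j a hidden unit contributes
to the mixed second difference with the sign of W i k * W j k.  The distribution
p(v) proportional to exp (4 * (-1)^|v|) needs both signs for all six pairs of directions, which
forces, up to symmetry, a unique sign pattern of the 4 x 3 weight matrix.  At the balanced vertex
of this pattern the required interactions on two complementary faces are contradictory.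
-/

namespace Pool.Agent.Results.MP_dabbe0_pr.NotUniversal43

/-- No binary RBM with 4 visible units and at most 3 hidden units is a universal approximator:
the closure of the model is not the whole probability simplex on `{0,1}^4`. -/
theorem result : ∀ m : ℕ, m ≤ 3 → closure (RBM 4 m) ≠ stdSimplex ℝ (Fin 4 → Fin 2) :=
  main

end Pool.Agent.Results.MP_dabbe0_pr.NotUniversal43
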